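import Pool.Agent.helper64.QF.Spec

/-! Project `pq:` (MP_b9b9c0_an), module LEX. -/

set_option autoImplicit false

namespace Pool.Agent.helper64.QF

open Metric MeasureTheory Set Filter Topology
open Pool.Agent.helper37.PR
open scoped NNReal

theorem LEX_V1 {n : ℕ} (p : Fin n → MvPolynomial (Fin n) ℂ) (h : pm p 0 = 0) (j : Fin n) :
    V1 (p j) := by
  have h1 : (pm p 0) j = 0 := by rw [h]; rfl
  have h2 : (pm p 0) j = MvPolynomial.eval (fun _ => (0 : ℂ)) (p j) := rfl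
  rw [V1, ← h2, h1]

theorem LEX_lip {n : ℕ} (f : E n → E n) (hf : AnalyticOnNhd ℂ f univ) :
    ∃ K : ℝ, 0 ≤ K ∧ ∀ x y : E n, ‖x‖ ≤ 2 → ‖y‖ ≤ 2 → ‖f x - f y‖ ≤ K * ‖x - y‖ := by
  have hc : ContinuousOn (fderiv ℂ f) (closedBall (0 : E n) 2) :=
    fun x _ => ((hf x (mem_univ x)).fderiv.continuousAt).continuousWithinAt
  obtain ⟨C, hC⟩ := (isCompact_closedBall (0 : E n) 2).exists_bound_of_continuousOn hc
  refine ⟨max C 0, le_max_right _ _, fun x y hx hy => ?_⟩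
  have hx' : x ∈ closedBall (0 : E n) 2 := by simpa using hx
  have hy' : y ∈ closedBall (0 : E n) 2 := by simpa using hy
  exact (convex_closedBall (0 : E n) 2).norm_image_sub_le_of_norm_fderiv_le (𝕜 := ℂ)
    (fun z _ => (hf z (mem_univ z)).differentiableAt)
    (fun z hz => (hC z hz).trans (le_max_left _ _)) hy' hx'

/-- the norm does not increase along the flow -/
theorem LEX_mem {n : ℕ} {A : E n →L[ℂ] E n} {h : E n → E n} (hc : IsCara A h) {τ : ℝ}
    {x : ℝ → E n} (hx0 : ‖x 0‖ < 1)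
    (hd : ∀ t ∈ Icc (0 : ℝ) τ, HasDerivWithinAt x (-(h (x t))) (Icc (0 : ℝ) τ) t) :
    ∀ t ∈ Icc (0 : ℝ) τ, ‖x t‖ < 1 := by
  by_contra hcon
  push Not at hcon
  obtain ⟨t₂, ht₂, hx₂⟩ := hcon
  have hcont : ContinuousOn x (Icc 0 τ) := fun t ht => (hd t ht).continuousWithinAt
  let S : Set ℝ := {t | t ∈ Icc (0 : ℝ) τ ∧ 1 ≤ ‖x t‖}
  have hS : IsCompact S := by
    have h1 : S = Icc (0 : ℝ) τ ∩ (fun t => ‖x t‖) ⁻¹' (Ici 1) := by
      ext t; rfl
    rw [h1]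
    exact isCompact_Icc.of_isClosed_subset
      (hcont.norm.preimage_isClosed_of_isClosed isClosed_Icc isClosed_Ici) inter_subset_left
  have hne : S.Nonempty := ⟨t₂, ht₂, hx₂⟩
  have ht₁ : sInf S ∈ S := hS.sInf_mem hne
  set t₁ := sInf S with ht₁def
  have hpos : 0 < t₁ := by
    rcases lt_or_eq_of_le ht₁.1.1 with h | h
    · exact h
    · exfalso
      have := ht₁.2
      rw [← h] at this
      linarith
  have hlt : ∀ t, 0 ≤ t → t < t₁ → ‖x t‖ < 1 := by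
    intro t h0 h1
    by_contra hge
    push Not at hge
    have : t₁ ≤ t := csInf_le hS.bddBelow ⟨⟨h0, (h1.le.trans ht₁.1.2)⟩, hge⟩
    linarith
  have hder : ∀ t ∈ Ioo (0 : ℝ) t₁, HasDerivAt (fun t => ‖x t‖ ^ 2)
      (2 * (inner ℂ (x t) (-(h (x t)))).re) t := by
    intro t ht
    have h1 : HasDerivAt x (-(h (x t))) t :=
      (hd t ⟨ht.1.le, ht.2.le.trans ht₁.1.2⟩).hasDerivAt
        (Icc_mem_nhds ht.1 (ht.2.trans_le ht₁.1.2))
    exact hasDerivAt_normSq h1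
  have hanti : AntitoneOn (fun t => ‖x t‖ ^ 2) (Icc 0 t₁) := by
    apply antitoneOn_of_deriv_nonpos (convex_Icc 0 t₁)
    · exact ((hcont.mono (Icc_subset_Icc_right ht₁.1.2)).norm.pow 2)
    · rw [interior_Icc]
      exact fun t ht => (hder t ht).differentiableAt.differentiableWithinAt
    · rw [interior_Icc]
      intro t ht
      rw [(hder t ht).deriv]
      have h2 : 0 ≤ (inner ℂ (x t) (h (x t))).re :=
        hc.nonneg (by simpa using hlt t ht.1.le ht.2)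
      rw [inner_neg_right, Complex.neg_re]
      linarith
  have h3 : ‖x t₁‖ ^ 2 ≤ ‖x 0‖ ^ 2 :=
    hanti (left_mem_Icc.2 hpos.le) (right_mem_Icc.2 hpos.le) hpos.le
  have h4 : ‖x 0‖ ^ 2 < 1 := by nlinarith [norm_nonneg (x 0)]
  have h5 := ht₁.2
  nlinarith

theorem LEX_exp {K t : ℝ} (h : K * t ≤ 1 / 2) : Real.exp (K * t) ≤ 2 := by
  have h1 : Real.exp (K * t) ≤ Real.exp (1 / 2) := Real.exp_le_exp.2 h
  have h2 : Real.exp (1 / 2) * Real.exp (1 / 2) = Real.exp 1 := by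
    rw [← Real.exp_add]; norm_num
  have h3 := Real.exp_one_lt_d9
  have h4 := Real.exp_pos (1 / 2)
  nlinarith

theorem LEX (hPP2 : PP2_stmt) : LEX_stmt := by
  intro n A p hc
  have hV : ∀ j, V1 (p j) := LEX_V1 p hc.zero
  obtain ⟨han, h00, -, -⟩ := hPP2 n p hV
  obtain ⟨K, hK, hlip⟩ := LEX_lip (pm p) han
  have hτ₀ : (0 : ℝ) < 1 / (2 * (K + 1)) := by positivity
  have hKτ : 1 / (2 * (K + 1)) * K ≤ 1 / 2 := by
    rw [div_mul_eq_mul_div, div_le_div_iff₀ (by positivity) (by norm_num)]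
    linarith
  refine ⟨1 / (2 * (K + 1)), K, hτ₀, hK, hKτ, hlip, ?_⟩
  intro τ hτ hττ
  have hKτ' : τ * K ≤ 1 / 2 := le_trans (mul_le_mul_of_nonneg_right hττ hK) hKτ
  -- Picard-Lindelof
  let v : E n → E n := fun x => -(pm p x)
  have hlipv : LipschitzOnWith (⟨K, hK⟩ : ℝ≥0) v (closedBall (0 : E n) 2) := by
    apply LipschitzOnWith.of_dist_le_mul
    intro x hx y hy
    rw [dist_eq_norm, dist_eq_norm]
    have h1 : v x - v y = -(pm p x - pm p y) := by simp only [v]; abel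
    rw [h1, norm_neg]
    exact hlip x y (by simpa using hx) (by simpa using hy)
  have hbd : ∀ x ∈ closedBall (0 : E n) 2, ‖v x‖ ≤ 2 * K := by
    intro x hx
    have h1 := hlip x 0 (by simpa using hx) (by simp)
    rw [h00, sub_zero, sub_zero] at h1
    have h2 : ‖x‖ ≤ 2 := by simpa using hx
    simp only [v, norm_neg]
    nlinarith
  have hPL : IsPicardLindelof (fun _ => v) (tmin := 0) (tmax := τ) ⟨0, left_mem_Icc.2 hτ.le⟩
      (0 : E n) (2 : ℝ≥0) (1 : ℝ≥0) (⟨2 * K, by positivity⟩ : ℝ≥0) (⟨K, hK⟩ : ℝ≥0) := by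
    apply IsPicardLindelof.of_time_independent
    · intro x hx
      exact hbd x (by simpa using hx)
    · simpa using hlipv
    · simp only [sub_zero, sub_self]
      rw [max_eq_left hτ.le]
      change 2 * K * τ ≤ (2 : ℝ) - 1
      linarith
  have hex : ∀ z : E n, ∃ α : ℝ → E n, z ∈ ball (0 : E n) 1 → α 0 = z ∧
      ∀ t ∈ Icc (0 : ℝ) τ, HasDerivWithinAt α (-(pm p (α t))) (Icc (0 : ℝ) τ) t := by
    intro z
    by_cases hz : z ∈ ball (0 : E n) 1
    · obtain ⟨α, h1, h2⟩ := hPL.exists_eq_forall_mem_Icc_hasDerivWithinAt (x := z)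
        (by simpa using (mem_ball.1 hz).le)
      exact ⟨α, fun _ => ⟨h1, h2⟩⟩
    · exact ⟨fun _ => 0, fun h => absurd h hz⟩
  choose X hX using hex
  have hmem : ∀ z ∈ ball (0 : E n) 1, ∀ t ∈ Icc (0 : ℝ) τ, ‖X z t‖ < 1 := by
    intro z hz
    apply LEX_mem hc
    · rw [(hX z hz).1]; simpa using hz
    · exact (hX z hz).2
  refine ⟨X, fun z hz => (hX z hz).1, fun z hz t ht => by simpa using hmem z hz t ht,
    fun z hz => (hX z hz).2, ?_⟩
  intro z hz z' hz' t ht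
  have hder : ∀ w ∈ ball (0 : E n) 1, ∀ s ∈ Ico (0 : ℝ) τ,
      HasDerivWithinAt (X w) ((fun _ : ℝ => v) s (X w s)) (Ici s) s := by
    intro w hw s hs
    exact ((hX w hw).2 s ⟨hs.1, hs.2.le⟩).mono_of_mem_nhdsWithin (Icc_mem_nhdsGE_of_mem hs)
  have hcont : ∀ w ∈ ball (0 : E n) 1, ContinuousOn (X w) (Icc 0 τ) := fun w hw s hs =>
    ((hX w hw).2 s hs).continuousWithinAt
  have hin : ∀ w ∈ ball (0 : E n) 1, ∀ s ∈ Ico (0 : ℝ) τ,
      X w s ∈ (fun _ : ℝ => closedBall (0 : E n) 2) s := by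
    intro w hw s hs
    have := hmem w hw s ⟨hs.1, hs.2.le⟩
    simp only [mem_closedBall, dist_zero_right]
    linarith
  have hgr := dist_le_of_trajectories_ODE_of_mem (v := fun _ : ℝ => v)
    (s := fun _ => closedBall (0 : E n) 2) (K := ⟨K, hK⟩) (a := 0) (b := τ)
    (δ := dist z z') (fun _ _ => hlipv) (hcont z hz) (hder z hz) (hin z hz)
    (hcont z' hz') (hder z' hz') (hin z' hz')
    (by rw [(hX z hz).1, (hX z' hz').1]) t ht
  rw [dist_eq_norm, dist_eq_norm, sub_zero] at hgr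
  have hKt : K * t ≤ 1 / 2 := by nlinarith [ht.1, ht.2]
  have hexp := LEX_exp hKt
  calc ‖X z t - X z' t‖ ≤ ‖z - z'‖ * Real.exp (K * t) := hgr
    _ ≤ ‖z - z'‖ * 2 := mul_le_mul_of_nonneg_left hexp (norm_nonneg _)
    _ = 2 * ‖z - z'‖ := by ring

end Pool.Agent.helper64.QF
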